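import Pool.Agent.H72.UZ.TarZ
import Pool.Agent.H45.UZ.TarP

/-! # Q5: the relation `D_l` in the extension -/

set_option linter.unusedVariables false

open Ordinal Order Set
open scoped ZFSet

namespace SE.UZ

open SF

theorem Q5.ord_tri {κ ξ η : V} (hκ : IsOrd κ) (h1 : ξ ∈ κ) (h2 : η ∈ κ) :
    ∃ ζ ∈ κ, ξ ⊆ ζ ∧ η ⊆ ζ ∧ (ζ = ξ ∨ ζ = η) ∧ (ξ ∈ ζ ∨ ξ = ζ) ∧ (η ∈ ζ ∨ η = ζ) := by
  obtain ⟨α, rfl⟩ := hκ
  obtain ⟨β, _, rfl⟩ := Ordinal.mem_toZFSet_iff.1 h1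
  obtain ⟨γ, _, rfl⟩ := Ordinal.mem_toZFSet_iff.1 h2
  have hs : ∀ a b : Ordinal.{0}, a < b → (a.toZFSet : V) ⊆ b.toZFSet := by
    intro a b hab x hx
    obtain ⟨d, hd, rfl⟩ := Ordinal.mem_toZFSet_iff.1 hx
    exact Ordinal.toZFSet_mem_toZFSet_iff.2 (lt_trans hd hab)
  rcases lt_trichotomy β γ with h | h | h
  · exact ⟨_, h2, hs _ _ h, fun x hx => hx, Or.inr rfl,
      Or.inl (Ordinal.toZFSet_mem_toZFSet_iff.2 h), Or.inr rfl⟩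
  · subst h
    exact ⟨_, h2, fun x hx => hx, fun x hx => hx, Or.inr rfl, Or.inr rfl, Or.inr rfl⟩
  · exact ⟨_, h1, fun x hx => hx, hs _ _ h, Or.inl rfl, Or.inr rfl,
      Or.inl (Ordinal.toZFSet_mem_toZFSet_iff.2 h)⟩

theorem pf_Q5 (Q3 : T_Q3) (PWE : T_PWE) (PHA : T_PHA) (QRN : T_QRN) (BL : T_BL) (W0 : T_W0) :
    T_Q5 := by
  intro D κ b am ok F Λ G hF X y hWX hX hWy hy
  have DO : D.Ok := am.ok
  obtain ⟨C, hC⟩ : ∃ C, C = resS κ (fun ξ => tK (app F ξ) ξ) := ⟨_, rfl⟩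
  obtain ⟨q1, q2, q3, q4, q5, q6, q7, q8, q9, q10, q11⟩ := Q3 D κ b am ok F Λ G hF C hC
  have hCx : ∀ ξ ∈ κ, app C ξ = tK (app F ξ) ξ := fun ξ hξ => by rw [hC, app_resS hξ]
  have nL : D.N Λ := DO.zfc.trans _ DO.hN _ q3
  have cL : Cld D.L Λ := q4.c
  have gL : D.Gn Λ G := hF.g
  have hGun : D.Gn (b.un κ C) G := by rw [q2]; exact gL
  obtain ⟨-, t2, -⟩ := ok.tru C q1 G hGun
  have hO : ∀ ξ ∈ κ, app C ξ ∈ b.Ob := q1.o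
  have hcs : ∀ B ∈ b.Ob, D.N (b.u B) ∧ Cld D.L (b.u B) ∧ Tr (b.u B) := fun B hB =>
    ⟨DO.zfc.trans _ DO.hN _ (ok.cs B hB).h, (ok.cs B hB).c, fun i hi => ((ok.cs B hB).c i hi).2⟩
  have hun : ∀ i, i ∈ Λ ↔ ∃ ξ ∈ κ, i ∈ b.u (app C ξ) := by
    intro i
    rw [← q2, BS.un]
    constructor
    · intro h
      obtain ⟨z, hz, hi⟩ := ZFSet.mem_sUnion.1 h
      obtain ⟨ξ, hξ, rfl⟩ := mem_imS.1 hz
      exact ⟨ξ, hξ, hi⟩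
    · rintro ⟨ξ, hξ, hi⟩
      exact ZFSet.mem_sUnion.2 ⟨_, mem_imS.2 ⟨ξ, hξ, rfl⟩, hi⟩
  have hsub : ∀ ξ ∈ κ, b.u (app C ξ) ⊆ Λ := fun ξ hξ i hi => (hun i).2 ⟨ξ, hξ, hi⟩
  have hmon : ∀ ξ ∈ κ, ∀ η ∈ κ, (ξ ∈ η ∨ ξ = η) → b.u (app C ξ) ⊆ b.u (app C η) := by
    intro ξ hξ η hη h
    rcases h with h | h
    · exact (ok.leO _ _ (q1.m ξ hξ η hη h)).2.2
    · subst h
      exact fun x hx => hx
  rw [t2 X y hWX hX hWy hy, q2]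
  constructor
  · rintro ⟨i, hi, hk, he⟩ hE
    obtain ⟨ξ', hξ', e', hent⟩ := (q8 X y).1 hE
    obtain ⟨ξ, hξ, hiξ⟩ := (hun i).1 hi
    obtain ⟨η, hη, s1, s2, -, m1, m2⟩ := Q5.ord_tri am.ord hξ hξ'
    have hiη := hmon ξ hξ η hη m1 hiξ
    obtain ⟨nη, cη, tη⟩ := hcs _ (hO η hη)
    obtain ⟨n', c', t'⟩ := hcs _ (hO ξ' hξ')
    have hsub' := hmon ξ' hξ' η hη m2
    obtain ⟨bl1, bl2, bl3, bl4, bl5, bl6, bl7⟩ :=
      (BL D DO Λ G nL cL gL).2 (b.u (app C η)) nη (hsub η hη) tη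
    have w' := (PWE b D _ _ _).1 (q7 ξ' hξ')
    have wη := (PWE b D _ _ _).1 (q7 η hη)
    have p1 := (PHA D DO (b.u (app C ξ')) Λ _ _ n' c' nL cL (hsub ξ' hξ') w'.wo.hs).1 G gL
    have p2 := (PHA D DO (b.u (app C ξ')) (b.u (app C η)) _ _ n' c' nη cη hsub' w'.wo.hs).1
      (gs G (b.u (app C η))) bl1
    obtain ⟨r1, r2, r3, -⟩ := ((p1.1 X y e').2 hent)
    have h1 : Ent (tH (app F ξ') ξ') (gs G (b.u (app C η))) X y e' := by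
      rw [(p2.1 X y e').1, bl7 _ hsub', ← (p1.1 X y e').1]
      exact hent
    have hRR : RR D (b.u (app C ξ')) (gs G (b.u (app C η))) X := by
      unfold RR
      rw [bl7 _ hsub']
      exact r1
    have h2 := ((q6 ξ' hξ' η hη s2).2.e _ bl1 X hRR y e').1 ⟨h1, r3⟩
    refine wη.w1 i hiη hk _ bl1 X y e' h2.1 ?_
    have h3 := (QRN D DO Λ G (b.u (app C η)) nL cL gL nη (hsub η hη) tη)
    have h4 := h3.2.2.2.2.2.2.2.2.2.2.2.2.2.2 i hiη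
    rw [h4.2.1]
    exact he
  · intro hE
    obtain ⟨ξ1, hξ1, hx1⟩ := q5 X hWX hX
    obtain ⟨ξ2, hξ2, hx2⟩ := q5 y hWy hy
    obtain ⟨ξ, hξ, s1, s2, -⟩ := Q5.ord_tri am.ord hξ1 hξ2
    have hX' := (q6 ξ1 hξ1 ξ hξ s1).1 X hx1
    have hy' := (q6 ξ2 hξ2 ξ hξ s2).1 y hx2
    have hs : insert ξ ξ ∈ κ := am.suc ξ hξ
    obtain ⟨T, hT⟩ : ∃ T, T = app F (insert ξ ξ) := ⟨_, rfl⟩
    have tT : b.Tw D κ T := by rw [hT]; exact hF.t _ hs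
    have rT : b.Rt D κ T := by rw [hT]; exact hF.r _ hξ
    obtain ⟨u1, u2⟩ := q11 ξ hξ (app T ξ) (by rw [hT]) X y hX' hy'
    obtain ⟨w1, w2, w3, w4, w5, w6⟩ := W0 D κ b am ok T tT
    obtain ⟨-, wd1, -⟩ := w4 ξ hξ
    obtain ⟨ob2, wd2, -⟩ := w4 _ hs
    have hCs : app C (insert ξ ξ) = tK T (insert ξ ξ) := by rw [hCx _ hs, hT]
    obtain ⟨lepq, upq⟩ := w5 ξ hξ _ hs (fun x hx => ZFSet.mem_insert_iff.2 (Or.inr hx))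
    obtain ⟨op, oq, -⟩ := ok.leO _ _ lepq
    obtain ⟨nq, cq, tq⟩ := hcs _ oq
    obtain ⟨np, cp, tp⟩ := hcs _ op
    have hqL : b.u (tK T (insert ξ ξ)) ⊆ Λ := by rw [← hCs]; exact hsub _ hs
    have hpL : b.u (tK T ξ) ⊆ Λ := fun x hx => hqL (upq hx)
    obtain ⟨bl1, bl2, bl3, bl4, bl5, bl6, bl7⟩ :=
      (BL D DO Λ G nL cL gL).2 (b.u (tK T (insert ξ ξ))) nq hqL tq
    have wp := (PWE b D _ _ _).1 wd1
    have p1 := (PHA D DO (b.u (tK T ξ)) Λ _ _ np cp nL cL hpL wp.wo.hs).1 G gL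
    have p2 := (PHA D DO (b.u (tK T ξ)) (b.u (tK T (insert ξ ξ))) _ _ np cp nq cq upq wp.wo.hs).1
      (gs G (b.u (tK T (insert ξ ξ)))) bl1
    have hRR : ∀ x, RR D (b.u (tK T ξ)) G x →
        RR D (b.u (tK T ξ)) (gs G (b.u (tK T (insert ξ ξ)))) x := by
      intro x hx
      unfold RR
      rw [bl7 _ upq]
      exact hx
    obtain ⟨j, hj, hco, hev⟩ := rT.r4 ξ hξ (gs G (b.u (tK T (insert ξ ξ)))) bl1 X y
      (hRR X u1) (hRR y u2) (by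
        rintro ⟨e, he⟩
        have h1 : Ent (tH T ξ) G X y e := by
          rw [(p1.1 X y e).1, ← bl7 _ upq, ← (p2.1 X y e).1]
          exact he
        refine hE ⟨insert ξ ξ, hs, ?_⟩
        rw [← hT]
        exact ⟨ξ, hξ, e, h1⟩)
    have h3 := (QRN D DO Λ G (b.u (tK T (insert ξ ξ))) nL cL gL nq hqL tq)
    have h4 := h3.2.2.2.2.2.2.2.2.2.2.2.2.2.2 j hj
    exact ⟨j, hqL hj, hco, by rw [← h4.2.1]; exact hev⟩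

end SE.UZ
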