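import Pool.Agent.H72.UZ.TarZ
import Pool.Agent.H45.UZ.TarP

/-! # QB: the new system, transport -/

set_option linter.unusedVariables false

open Ordinal Order Set
open scoped ZFSet

namespace SE.UZ

open SF

/-- the names in the secured facts of the new system -/
theorem QB.se (Q1 : T_Q1) (QRN : T_QRN) (W0 : T_W0) {D : Cx} {κ : V} {b : BS} (am : Amb D κ)
    (ok : b.Ok D κ) {c : BS} (hc : c = b.Pr D κ) {T : V} (hT : b.Tw D κ T) {G : V}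
    (hG : D.Gn (b.ut κ T) G) {a x : V} (h : c.Se T G a x) :
    RR D (b.ut κ T) G a ∧ RR D (b.ut κ T) G x := by
  have DO : D.Ok := am.ok
  obtain ⟨-, -, -, -, -, -, s7⟩ := Q1 D κ b am ok c hc
  obtain ⟨p, hp, a', x', hz, rfl, rfl⟩ := h
  obtain ⟨T', p', a1, x1, -, -, ⟨na, ma⟩, ⟨nx, mx⟩, he, -⟩ := (s7 _).1 hz
  obtain ⟨e1, e2⟩ := ZFSet.pair_inj.1 he
  obtain ⟨e3, e4⟩ := ZFSet.pair_inj.1 e2
  obtain ⟨e5, e6⟩ := ZFSet.pair_inj.1 e4
  subst e1 e5 e6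
  obtain ⟨w1, w2, -⟩ := W0 D κ b am ok T hT
  have nT : D.N (b.ut κ T) := DO.zfc.trans _ DO.hN _ w1
  have q := (QRN D DO (b.ut κ T) G (b.ut κ T) nT w2.c hG nT (fun z hz => hz)
    (fun i hi => (w2.c i hi).2)).1
  exact ⟨(q _).2 ⟨a', na, ma, rfl⟩, (q _).2 ⟨x', nx, mx, rfl⟩⟩

theorem pf_QB (Q1 : T_Q1) (Q2 : T_Q2) (W0 : T_W0) (W3 : T_W3) (W3b : T_W3b) (QI1 : T_QI1)
    (QI1i : T_QI1i) (QI3 : T_QI3) (QRN : T_QRN) : T_QB := by
  intro D κ b am ok c hc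
  have DO : D.Ok := am.ok
  obtain ⟨-, s2, s3, s4, -, s6, s7⟩ := Q1 D κ b am ok c hc
  have el : c.l = b.l + 2 := by rw [hc]; rfl
  have eS : c.S = b.S' := by rw [hc]; rfl
  have hSl : Sl (b.l + 2) b.S' := by
    intro e he
    rcases he with he | he
    · obtain ⟨h1, h2⟩ := ok.sl e he
      exact ⟨h1, by omega⟩
    · have := ok.l3
      exact ⟨by omega, by omega⟩
  have hV : ∀ T, b.Tw D κ T → Vws b.S' (b.ut κ T) := by
    intro T hT i hi e he hk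
    obtain ⟨w1, w2, w3, w4, -⟩ := W0 D κ b am ok T hT
    obtain ⟨ξ, hξ, hiξ⟩ := (w3 i).1 hi
    obtain ⟨ob, -, hsub⟩ := w4 ξ hξ
    rcases he with he | he
    · exact fun z hz => hsub (ok.rk _ ob.o i hiξ e he hk hz)
    · subst he
      obtain ⟨-, ⟨A, hA, hAv⟩, -⟩ := ob.v i hiξ hk
      intro z hz
      rw [← hAv] at hz
      exact hsub ((ok.leO _ _ hA).2.2 hz)
  rw [el, eS]
  refine ⟨?_, ?_, ?_⟩
  · intro B hB π ρ' hi
    have tB := (s2 B).1 hB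
    rw [s3 B tB] at hi
    obtain ⟨v1, v2, v3, v4⟩ := W3 D κ b am ok B tB π ρ' hi
    obtain ⟨⟨-, -, -, -, -, ⟨i1, i2⟩, i3⟩, -, -, -, i4⟩ := QI1 D DO _ _ π _ ρ' hSl hi
    have e1 : c.T π B = b.tT κ π B := s6 B tB π ρ' hi
    rw [e1]
    refine ⟨(s2 _).2 v1, by rw [s3 _ v1, v2], ?_, ?_⟩
    · rw [s6 _ v1 (inv π) (b.ut κ B) (by rw [v2]; exact i3), v3]
    · intro C hC
      have hC' := (s4 C B).1 hC
      have tC := hC'.t
      obtain ⟨w1, w2, w3, w4, -⟩ := W0 D κ b am ok C tC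
      obtain ⟨wB1, wB2, wB3, wB4, -⟩ := W0 D κ b am ok B tB
      have hsub : b.ut κ C ⊆ b.ut κ B := by
        intro i hi
        obtain ⟨ξ, hξ, hiξ⟩ := (w3 i).1 hi
        rw [hC'.u ξ hξ] at hiξ
        exact (wB3 i).2 ⟨ξ, hξ, (ZFSet.mem_inter.1 hiξ).1⟩
      rw [s3 C tC]
      have h1 := (i4 (b.ut κ C) (DO.zfc.trans _ DO.hN _ w1) hsub (fun i hi => (w2.c i hi).2)
        (hV C tC)).1
      rw [s6 C tC _ _ h1, s4]
      exact (W3b D κ b am ok).2 C B hC' π ρ' hi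
  · intro B hB
    have tB := (s2 B).1 hB
    obtain ⟨w1, w2, -⟩ := W0 D κ b am ok B tB
    rw [s3 B tB, s6 B tB _ _ (QI1i D DO _ _ _ hSl w2 (hV B tB)).1]
    exact (W3b D κ b am ok).1 B tB
  · intro B hB π ρ' hi G hG a x
    have tB := (s2 B).1 hB
    rw [s3 B tB] at hi hG
    obtain ⟨v1, v2, v3, v4⟩ := W3 D κ b am ok B tB π ρ' hi
    obtain ⟨⟨-, -, im1, -, -, -, i3⟩, -, -, -, i4⟩ := QI1 D DO _ _ π _ ρ' hSl hi
    have e1 : c.T π B = b.tT κ π B := s6 B tB π ρ' hi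
    rw [e1]
    obtain ⟨w1, w2, -⟩ := W0 D κ b am ok B tB
    have nB : D.N (b.ut κ B) := DO.zfc.trans _ DO.hN _ w1
    have trB : Tr (b.ut κ B) := fun i hi => (w2.c i hi).2
    obtain ⟨g1, -, -, -, -, g6⟩ := QI3 D DO _ _ π _ ρ' hSl hi G hG _ rfl
    obtain ⟨-, -, g7, -⟩ := g6 (b.ut κ B) nB (fun z hz => hz) trB
    rw [im1] at g7
    have gB : D.Gn (b.ut κ (b.tT κ π B)) (gi D π ρ' G) := by rw [v2]; exact g1
    obtain ⟨u1, u2, -⟩ := W0 D κ b am ok _ v1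
    by_cases hr : RR D (b.ut κ B) G a ∧ RR D (b.ut κ B) G x
    · have h1 := Q2 D κ b am ok B tB (b.ut κ B) nB w2.c (fun z hz => hz) G hG a x hr.1 hr.2
      have h2 := Q2 D κ b am ok _ v1 (b.ut κ (b.tT κ π B)) (DO.zfc.trans _ DO.hN _ u1) u2.c
        (fun z hz => hz) (gi D π ρ' G) gB a x (by rw [v2]; exact (g7 a).2 hr.1)
        (by rw [v2]; exact (g7 x).2 hr.2)
      rw [hc, h1, h2, v4 G hG]
    · constructor
      · intro h
        exact absurd (QB.se Q1 QRN W0 am ok hc tB hG h) hr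
      · intro h
        obtain ⟨r1, r2⟩ := QB.se Q1 QRN W0 am ok hc v1 gB h
        rw [v2] at r1 r2
        exact absurd ⟨(g7 a).1 r1, (g7 x).1 r2⟩ hr

end SE.UZ
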